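import Pool.Agent.Helper83.RB.St

set_option autoImplicit false

namespace Pool.Agent.Helper63.RB

open Pool.Agent.Helper83.RB

/-- Three subgroups lemma modulo a normal subgroup. -/
theorem rotate_le {G : Type} [Group G] (A B C N : Subgroup G) [N.Normal]
    (h1 : ⁅⁅B, C⁆, A⁆ ≤ N) (h2 : ⁅⁅C, A⁆, B⁆ ≤ N) : ⁅⁅A, B⁆, C⁆ ≤ N := by
  have key : ∀ X : Subgroup G, X ≤ N ↔ X.map (QuotientGroup.mk' N) = ⊥ := by
    intro X
    rw [Subgroup.map_eq_bot_iff, QuotientGroup.ker_mk']
  rw [key] at h1 h2 ⊢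
  rw [Subgroup.map_commutator, Subgroup.map_commutator] at h1 h2 ⊢
  exact Subgroup.commutator_commutator_eq_bot_of_rotate h1 h2

theorem hLCC : StLCC := by
  intro G _ i j
  induction j generalizing i with
  | zero =>
    show ⁅(⊤ : Subgroup G).lowerCentralSeries i, (⊤ : Subgroup G).lowerCentralSeries 0⁆ ≤
      (⊤ : Subgroup G).lowerCentralSeries (i + 0 + 1)
    rw [Subgroup.lowerCentralSeries_zero, Nat.add_zero, Subgroup.lowerCentralSeries_succ]
  | succ j ih =>
    rw [Subgroup.commutator_comm, Subgroup.lowerCentralSeries_succ]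
    apply rotate_le
    · -- ⁅⁅⊤, Γ i⁆, Γ j⁆
      have h := ih (i + 1)
      rw [Subgroup.lowerCentralSeries_succ, Subgroup.commutator_comm _ (⊤ : Subgroup G)] at h
      refine h.trans (le_of_eq ?_)
      congr 1
      omega
    · have h := ih i
      have h' := Subgroup.commutator_mono h (le_refl (⊤ : Subgroup G))
      refine h'.trans (le_of_eq ?_)
      rw [← Subgroup.lowerCentralSeries_succ]
      congr 1

end Pool.Agent.Helper63.RB
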