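import Pool.Agent.Helper83.RB.St

set_option autoImplicit false

namespace Pool.Agent.Helper63.RB

open Pool.Agent.Helper83.RB
open scoped commutatorElement

/-- the geometric sum in a ring with `p = 0`. -/
theorem geom_eq_pow (p : ℕ) [Fact p.Prime] {A : Type} [Ring A] (hp : (p : A) = 0) (x : A) :
    (x - 1) ^ (p - 1) = ∑ i ∈ Finset.range p, x ^ i := by
  by_cases hA : Nontrivial A
  · have h := CharP.ringChar_ne_one (R := A)
    have h2 : ringChar A ∣ p := (ringChar.spec A p).mp hp
    have h3 : ringChar A = p := ((Nat.Prime.eq_one_or_self_of_dvd Fact.out _ h2).resolve_left h)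
    haveI : CharP A p := h3 ▸ ringChar.charP A
    letI : Algebra (ZMod p) A := ZMod.algebra A p
    have key : ((Polynomial.X : Polynomial (ZMod p)) - 1) ^ (p - 1)
        = ∑ i ∈ Finset.range p, (Polynomial.X : Polynomial (ZMod p)) ^ i := by
      have hne : ((Polynomial.X : Polynomial (ZMod p)) - 1) ≠ 0 := by
        have := Polynomial.X_sub_C_ne_zero (1 : ZMod p)
        simpa using this
      apply mul_right_cancel₀ hne
      rw [← pow_succ, Nat.sub_add_cancel (Nat.Prime.one_le Fact.out), geom_sum_mul]
      have h5 := sub_pow_expChar (p := p) (Polynomial.X : Polynomial (ZMod p)) 1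
      rw [h5, one_pow]
    have := congrArg (Polynomial.aeval (R := ZMod p) x) key
    simpa [map_sum] using this
  · have := not_nontrivial_iff_subsingleton.mp hA
    exact Subsingleton.elim _ _

/-- The conjugation action in the endomorphism ring of `Additive V`. -/
theorem exists_rho {G : Type} [Group G] (V : Subgroup G) [V.Normal]
    (hV : ∀ x ∈ V, ∀ y ∈ V, x * y = y * x) :
    ∃ (A : Type) (_ : Ring A) (ρ : G →* A) (act : A → V → V),
      (∀ a : A, (∀ v, act a v = 1) → a = 0) ∧
      (∀ v, act 0 v = 1) ∧
      (∀ v, act 1 v = v) ∧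
      (∀ a b v, act (a * b) v = act a (act b v)) ∧
      (∀ a b v, act (a + b) v = act a v * act b v) ∧
      (∀ a v, act (-a) v = (act a v)⁻¹) ∧
      (∀ a v w, act a (v * w) = act a v * act a w) ∧
      (∀ a v, act a (v⁻¹) = (act a v)⁻¹) ∧
      (∀ a, act a 1 = 1) ∧
      (∀ g v, ((act (ρ g) v : V) : G) = g * v * g⁻¹) := by
  letI : CommGroup V := { (inferInstance : Group V) with
    mul_comm := fun a b => Subtype.ext (hV a a.2 b b.2) }
  refine ⟨AddMonoid.End (Additive V), inferInstance,
    { toFun := fun g => MonoidHom.toAdditive (MulAut.conjNormal g : V ≃* V).toMonoidHom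
      map_one' := ?_
      map_mul' := ?_ }, fun a v => (a (Additive.ofMul v)).toMul, ?_, ?_, ?_, ?_, ?_, ?_, ?_, ?_, ?_, ?_⟩
  · ext v
    simp
    rfl
  · intro g h
    ext v
    simp
    rfl
  · intro a h
    ext v
    have := h v.toMul
    exact congrArg Subtype.val this
  · intro v; rfl
  · intro v; rfl
  · intro a b v; rfl
  · intro a b v; rfl
  · intro a v; rfl
  · intro a v w
    show (a (Additive.ofMul v + Additive.ofMul w)).toMul = _
    rw [map_add]; rfl
  · intro a v
    show (a (-Additive.ofMul v)).toMul = _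
    rw [map_neg]; rfl
  · intro a
    show (a 0).toMul = _
    rw [map_zero]; rfl
  · intro g v
    exact MulAut.conjNormal_apply g v

theorem hABN (hWGT : StWGT) : StABN := by
  intro p c _ G _ _ hexp V _ hV hΓ
  obtain ⟨A, _, ρ, act, hinj, h0, h1, hmul, hadd, hneg, hactmul, hactinv, hactone, hρ⟩ :=
    exists_rho V hV
  have hsub : ∀ a b v, act (a - b) v = act a v * (act b v)⁻¹ := by
    intro a b v
    rw [sub_eq_add_neg, hadd, hneg]
  have hcast : ∀ (n : ℕ) (v : V), act (n : A) v = v ^ n := by
    intro n v
    induction n with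
    | zero => rw [Nat.cast_zero, h0, pow_zero]
    | succ n ih => rw [Nat.cast_succ, hadd, ih, h1, pow_succ]
  have hp0 : (p : A) = 0 := by
    apply hinj
    intro v
    rw [hcast]
    exact Subtype.ext (by simpa using hexp (v : G))
  have hpow : ∀ g, (ρ g - 1) ^ (p - 1) = 0 := by
    intro g
    rw [geom_eq_pow p hp0]
    apply hinj
    intro v
    have key : ∀ n : ℕ, ((act (∑ i ∈ Finset.range n, ρ g ^ i) v : V) : G) * g ^ n
        = ((v : G) * g) ^ n := by
      intro n
      induction n with
      | zero => rw [Finset.range_zero, Finset.sum_empty, h0]; simp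
      | succ n ih =>
        rw [Finset.sum_range_succ, hadd, ← map_pow, Subgroup.coe_mul, hρ, pow_succ ((v : G) * g),
          ← ih, pow_succ g]
        group
    have h := key p
    rw [hexp, hexp, mul_one] at h
    exact Subtype.ext (by simpa using h)
  have hΓ1 : ∀ g ∈ (⊤ : Subgroup G).lowerCentralSeries c, ρ g = 1 := by
    intro g hg
    have hgV := hΓ hg
    have : ρ g - 1 = 0 := by
      apply hinj
      intro v
      rw [hsub, h1]
      apply Subtype.ext
      rw [Subgroup.coe_mul, hρ, hV g hgV v v.2]
      simp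
    exact sub_eq_zero.mp this
  have hcons : ∀ (g : G) (l : List G) (v : V),
      ((act (((g :: l).map fun g => ρ g - 1).prod) v : V) : G)
        = ⁅g, ((act ((l.map fun g => ρ g - 1).prod) v : V) : G)⁆ := by
    intro g l v
    rw [List.map_cons, List.prod_cons, hmul, hsub, h1, Subgroup.coe_mul, hρ]
    simp [commutatorElement_def]
  have hnil : ∃ n₀ : ℕ, ∀ l : List G, n₀ ≤ l.length → (l.map fun g => ρ g - 1).prod = 0 := by
    have hP : IsPGroup p G := fun g => ⟨1, by simpa using hexp g⟩
    have hN : Group.IsNilpotent G := hP.isNilpotent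
    obtain ⟨n₁, hn₁⟩ := Subgroup.nilpotent_iff_lowerCentralSeries.mp hN
    refine ⟨n₁, fun l hl => ?_⟩
    apply hinj
    intro v
    have key : ∀ l : List G, ((act ((l.map fun g => ρ g - 1).prod) v : V) : G) ∈
        (⊤ : Subgroup G).lowerCentralSeries l.length := by
      intro l
      induction l with
      | nil => simp
      | cons g l ih =>
        rw [hcons, List.length_cons, Subgroup.lowerCentralSeries_succ, Subgroup.commutator_comm]
        exact Subgroup.commutator_mem_commutator (Subgroup.mem_top g) ih
    have h := (Subgroup.lowerCentralSeries_antitone _ hl) (key l)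
    rw [hn₁, Subgroup.mem_bot] at h
    exact Subtype.ext (by simpa using h)
  have hW := hWGT p c G A hp0 ρ hpow hΓ1 hnil
  have main : ∀ (j : ℕ) (l : List G), (p - 2) * c + 1 ≤ j + l.length →
      ∀ u : V, (u : G) ∈ (⊤ : Subgroup G).lowerCentralSeries (c + j) →
        act ((l.map fun g => ρ g - 1).prod) u = 1 := by
    intro j
    induction j with
    | zero =>
      intro l hl u _
      rw [hW l (by omega), h0]
    | succ j ih =>
      intro l hl u hu
      obtain ⟨φ, hφ⟩ : ∃ φ : A, φ = (l.map fun g => ρ g - 1).prod := ⟨_, rfl⟩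
      rw [← hφ]
      let K : Subgroup G :=
        { carrier := {x | ∃ h : x ∈ V, act φ ⟨x, h⟩ = 1}
          mul_mem' := by
            rintro a b ⟨ha, ha'⟩ ⟨hb, hb'⟩
            refine ⟨V.mul_mem ha hb, ?_⟩
            have := hactmul φ ⟨a, ha⟩ ⟨b, hb⟩
            rw [ha', hb', mul_one] at this
            exact this
          one_mem' := ⟨V.one_mem, hactone φ⟩
          inv_mem' := by
            rintro a ⟨ha, ha'⟩
            refine ⟨V.inv_mem ha, ?_⟩
            have := hactinv φ ⟨a, ha⟩
            rw [ha', inv_one] at this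
            exact this }
      have hK : (⊤ : Subgroup G).lowerCentralSeries (c + (j + 1)) ≤ K := by
        rw [← Nat.add_assoc, Subgroup.lowerCentralSeries_succ, Subgroup.commutator_le]
        intro a ha g _
        have haV : a ∈ V := hΓ (Subgroup.lowerCentralSeries_antitone _ (Nat.le_add_right c j) ha)
        have e := ih (l ++ [g]) (by rw [List.length_append, List.length_singleton]; omega)
          ⟨a, haV⟩ ha
        rw [List.map_append, List.prod_append, hmul, ← hφ] at e
        have e2 : ((act (([g] : List G).map fun g => ρ g - 1).prod ⟨a, haV⟩ : V) : G) = ⁅g, a⁆ := by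
          rw [hcons g [] ⟨a, haV⟩, List.map_nil, List.prod_nil, h1]
        have e3 : ⁅g, a⁆ ∈ K := by
          refine ⟨e2 ▸ (act (([g] : List G).map fun g => ρ g - 1).prod ⟨a, haV⟩).2, ?_⟩
          have e4 : (⟨⁅g, a⁆, e2 ▸ (act (([g] : List G).map fun g => ρ g - 1).prod
              ⟨a, haV⟩).2⟩ : V) = act (([g] : List G).map fun g => ρ g - 1).prod ⟨a, haV⟩ :=
            Subtype.ext e2.symm
          rw [e4]
          exact e
        rw [← commutatorElement_inv]
        exact K.inv_mem e3
      obtain ⟨h, h'⟩ := hK hu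
      exact h'
  have hp2 : 2 ≤ p := Nat.Prime.two_le Fact.out
  rw [eq_bot_iff]
  intro x hx
  have hle : c + ((p - 2) * c + 1) ≤ p * c + 1 := by
    obtain ⟨q, rfl⟩ := Nat.exists_eq_add_of_le hp2
    rw [Nat.add_sub_cancel_left]
    nlinarith
  have hx' := (Subgroup.lowerCentralSeries_antitone _ hle) hx
  have hxV : x ∈ V := hΓ (Subgroup.lowerCentralSeries_antitone _ (Nat.le_add_right c _) hx')
  have := main ((p - 2) * c + 1) [] (by simp) ⟨x, hxV⟩ hx'
  rw [List.map_nil, List.prod_nil, h1] at this
  rw [Subgroup.mem_bot]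
  exact congrArg Subtype.val this

end Pool.Agent.Helper63.RB
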